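import Mathlib
import Pool.Agent.Y680.S.Top
import Pool.Agent.Results.MP_2ec8a3_nt.FewPowersAllHeights

/-!
# Szpiro's inequality with some exponent: few exceptions among the curves with few exponents

For all `n` and `ε > 0` there are `κ` and `C` such that for every `X ≥ 1` at most `C X ^ ε` semistable
elliptic curves over `ℚ` with full rational 2-torsion and conductor `N ≤ X`, of whatever height, such that
at most `n` different exponents occur in the factorisation of the minimal discriminant `Δ` (for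
example: with at most `n` bad primes), violate Szpiro's inequality `|Δ| ≤ N ^ κ`.

The proof: the curves correspond to the abc triples with `16 ∣ a b c`, with `Δ = (a b c / 16) ^ 2`
(`Pool/Agent/Y680/S`); if few exponents occur in `Δ`, then each of `a`, `b`, `c` is a product of powers of few
integers `≤ 2 X`, and there are few such triples with `c ≥ X ^ K` (`MP_2ec8a3_nt.FewPowersAllHeights`);
dyadic decomposition of the conductor.
-/

set_option autoImplicit false

namespace Pool.Agent.Results.MP_d8bd92_nt.FewExponentsAllHeights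

open Finset

/-- the product of the primes dividing `Δ(W)` (the conductor if `gcd(c₄, Δ) = 1`) -/
def conductor (W : WeierstrassCurve ℤ) : ℕ := ∏ p ∈ W.Δ.natAbs.primeFactors, p

/-- all 2-torsion points are rational: `4x³ + b₂x² + 2b₄x + b₆` splits over `ℚ` -/
def FullTwoTorsion (W : WeierstrassCurve ℤ) : Prop :=
  ∃ r₁ r₂ r₃ : ℚ, ∀ x : ℚ,
    4 * x ^ 3 + W.b₂ * x ^ 2 + 2 * W.b₄ * x + W.b₆ = 4 * (x - r₁) * (x - r₂) * (x - r₃)

/-- the set of the exponents which occur in the prime factorisation of `m` -/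
def exponents (m : ℕ) : Finset ℕ := m.primeFactors.image (fun p => m.factorization p)

/-- the invariants `(c₄, c₆)` of the integral Weierstrass curves with `Δ ≠ 0` and `gcd(c₄, Δ) = 1`
(the minimal models of the semistable elliptic curves over `ℚ`) having full rational 2-torsion,
conductor `N ≤ X`, at most `n` different exponents in the factorisation of `Δ`, and `|Δ| > N ^ κ` -/
def Violations (n : ℕ) (κ X : ℝ) : Set (ℤ × ℤ) :=
  {q | ∃ W : WeierstrassCurve ℤ, W.Δ ≠ 0 ∧ IsCoprime W.c₄ W.Δ ∧ FullTwoTorsion W ∧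
    q = (W.c₄, W.c₆) ∧ (conductor W : ℝ) ≤ X ∧ (exponents W.Δ.natAbs).card ≤ n ∧
    (conductor W : ℝ) ^ κ < |(W.Δ : ℝ)|}

open Pool.Agent.Results.MP_2ec8a3_nt.FewPowersAllHeights (PowerProduct)

lemma pp_cons {N X m x e : ℕ} (h : PowerProduct N X m) (hx : 1 ≤ x) (hxX : x ≤ X) :
    PowerProduct (N + 1) X (x ^ e * m) := by
  obtain ⟨y, f, hy, rfl⟩ := h
  refine ⟨Fin.cons x y, Fin.cons e f, ?_, ?_⟩
  · intro j
    refine Fin.cases ?_ (fun i => ?_) j
    · simpa using ⟨hx, hxX⟩
    · simpa using hy i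
  · rw [Fin.prod_univ_succ]
    simp

lemma pp_mono {N N' X m : ℕ} (hX : 1 ≤ X) (h : PowerProduct N X m) (hN : N ≤ N') :
    PowerProduct N' X m := by
  induction N', hN using Nat.le_induction with
  | base => exact h
  | succ k _ ih =>
    have := pp_cons (x := 1) (e := 0) ih le_rfl hX
    simpa using this

lemma pp_prod {X : ℕ} (g : ℕ → ℕ) (hg : ∀ e, 1 ≤ g e ∧ g e ≤ X) (E : Finset ℕ) :
    PowerProduct E.card X (∏ e ∈ E, g e ^ e) := by
  classical
  induction E using Finset.induction_on with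
  | empty => exact ⟨Fin.elim0, Fin.elim0, fun j => j.elim0, by simp⟩
  | insert e E he ih =>
    rw [Finset.prod_insert he, Finset.card_insert_of_notMem he]
    exact pp_cons ih (hg e).1 (hg e).2

/-- a number with few exponents is a product of few powers -/
lemma powerProduct_of {m N X : ℕ} (hm : m ≠ 0) (E : Finset ℕ) (hE : E.card ≤ N)
    (h : ∀ p ∈ m.primeFactors, m.factorization p ∈ E) (hX1 : 1 ≤ X)
    (hX : ∏ p ∈ m.primeFactors, p ≤ X) : PowerProduct N X m := by
  classical
  have h1 : m = ∏ e ∈ E, (∏ p ∈ m.primeFactors.filter (fun p => m.factorization p = e), p) ^ e := by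
    conv_lhs => rw [← Nat.prod_factorization_pow_eq_self hm]
    rw [Finsupp.prod, Nat.support_factorization,
      ← Finset.prod_fiberwise_of_maps_to (g := fun p => m.factorization p) (t := E) h]
    refine Finset.prod_congr rfl fun e _ => ?_
    rw [← Finset.prod_pow]
    refine Finset.prod_congr rfl fun p hp => ?_
    rw [(Finset.mem_filter.1 hp).2]
  rw [h1]
  refine pp_mono hX1 (pp_prod _ (fun e => ⟨?_, ?_⟩) E) hE
  · exact Finset.prod_pos fun p hp => (Nat.prime_of_mem_primeFactors (Finset.mem_filter.1 hp).1).pos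
  · refine le_trans ?_ hX
    exact Finset.prod_le_prod_of_subset_of_one_le' (Finset.filter_subset _ _)
      fun p hp _ => (Nat.prime_of_mem_primeFactors hp).one_le

/-- the members of the triple of a curve -/
lemma member {W : WeierstrassCurve ℤ} {a b k n X : ℕ} {m r : ℕ} (hk : 0 < k)
    (hprod : a * b * (a + b) = 16 * k) (hΔ : W.Δ = (k : ℤ) ^ 2)
    (hm : m * r = a * b * (a + b)) (hcop : Nat.Coprime m r)
    (hn : (exponents W.Δ.natAbs).card ≤ n) (hX : ∏ p ∈ (a * b * (a + b)).primeFactors, p ≤ X) :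
    PowerProduct (n + 1) X m := by
  classical
  have hpos : 0 < a * b * (a + b) := by omega
  have hm0 : m ≠ 0 := fun h => by rw [← hm, h, zero_mul] at hpos; exact absurd hpos (lt_irrefl 0)
  have hr0 : r ≠ 0 := fun h => by rw [← hm, h, mul_zero] at hpos; exact absurd hpos (lt_irrefl 0)
  have hD : W.Δ.natAbs = k ^ 2 := by rw [hΔ, Int.natAbs_pow, Int.natAbs_natCast]
  rw [hD] at hn
  have hX1 : 1 ≤ X := le_trans (Finset.prod_pos fun p hp =>
    (Nat.prime_of_mem_primeFactors hp).pos) hX
  refine powerProduct_of hm0 (insert (m.factorization 2)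
    ((exponents (k ^ 2)).image (fun e => e / 2))) ?_ ?_ hX1 ?_
  · refine (Finset.card_insert_le _ _).trans ?_
    exact Nat.add_le_add_right (Finset.card_image_le.trans hn) 1
  · intro p hp
    rw [Finset.mem_insert]
    by_cases hp2 : p = 2
    · left; rw [hp2]
    right
    have hpp := Nat.prime_of_mem_primeFactors hp
    have hpm : p ∣ m := Nat.dvd_of_mem_primeFactors hp
    have hpr : ¬ p ∣ r := fun h => hpp.one_lt.ne'
      (Nat.dvd_one.1 (hcop ▸ Nat.dvd_gcd hpm h))
    have e1 : (a * b * (a + b)).factorization p = m.factorization p := by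
      rw [← hm, Nat.factorization_mul hm0 hr0, Finsupp.add_apply,
        Nat.factorization_eq_zero_of_not_dvd hpr, add_zero]
    have e2 : (16 * k).factorization p = k.factorization p := by
      rw [Nat.factorization_mul (by norm_num) hk.ne', Finsupp.add_apply]
      have : (16 : ℕ).factorization p = 0 := by
        apply Nat.factorization_eq_zero_of_not_dvd
        intro h
        rw [show (16 : ℕ) = 2 ^ 4 by norm_num] at h
        exact hp2 ((Nat.prime_dvd_prime_iff_eq hpp Nat.prime_two).1 (hpp.dvd_of_dvd_pow h))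
      rw [this, zero_add]
    have e3 : m.factorization p = k.factorization p := by rw [← e1, hprod, e2]
    have hpk : p ∣ k := by
      have : m.factorization p ≠ 0 := (hpp.factorization_pos_of_dvd hm0 hpm).ne'
      rw [e3] at this
      exact Nat.dvd_of_factorization_pos this
    rw [Finset.mem_image]
    refine ⟨(k ^ 2).factorization p, ?_, ?_⟩
    · unfold exponents
      rw [Finset.mem_image]
      refine ⟨p, ?_, rfl⟩
      rw [Nat.primeFactors_pow _ (by norm_num)]
      exact Nat.mem_primeFactors.2 ⟨hpp, hpk, hk.ne'⟩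
    · rw [Nat.factorization_pow, Finsupp.smul_apply, smul_eq_mul, e3]
      omega
  · refine le_trans ?_ hX
    refine Finset.prod_le_prod_of_subset_of_one_le' (Nat.primeFactors_mono ⟨r, hm.symm⟩ hpos.ne')
      fun p hp _ => (Nat.prime_of_mem_primeFactors hp).one_le

open Pool.Agent.Results.MP_2ec8a3_nt.FewPowersAllHeights (Triples) in
/-- **Main theorem.** For all `n` and `ε > 0` there are `κ` and `C` such that for every `X ≥ 1` there are
only finitely many, at most `C X ^ ε`, semistable elliptic curves over `ℚ` with full rational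
2-torsion, conductor `N ≤ X`, at most `n` different exponents in the factorisation of the minimal
discriminant `Δ` and `|Δ| > N ^ κ`. -/
theorem result (n : ℕ) (ε : ℝ) (hε : 0 < ε) : ∃ κ C : ℝ, 6 ≤ κ ∧ 0 < C ∧ ∀ X : ℝ, 1 ≤ X →
    (Violations n κ X).Finite ∧ ((Violations n κ X).ncard : ℝ) ≤ C * X ^ ε := by
  classical
  obtain ⟨K, hK⟩ := Pool.Agent.Results.MP_2ec8a3_nt.FewPowersAllHeights.result (n + 1) (ε / 2)
    (by positivity)
  -- the curves in a dyadic range of the conductor
  obtain ⟨κ, hκ⟩ : ∃ κ : ℝ, κ = 18 * (K : ℝ) + 18 := ⟨_, rfl⟩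
  obtain ⟨D, hD⟩ : ∃ D : ℕ → Set (ℤ × ℤ), D = fun i => {q | ∃ W : WeierstrassCurve ℤ, W.Δ ≠ 0 ∧
    IsCoprime W.c₄ W.Δ ∧ FullTwoTorsion W ∧ q = (W.c₄, W.c₆) ∧ Nat.log 2 (conductor W) = i ∧
    (exponents W.Δ.natAbs).card ≤ n ∧ (conductor W : ℝ) ^ κ < |(W.Δ : ℝ)|} := ⟨_, rfl⟩
  have hsub : ∀ i, D i ⊆ Pool.Agent.Y680.S.ff '' Triples (n + 1) (4 * 2 ^ i) K := by
    intro i q hq
    rw [hD] at hq
    obtain ⟨W, w1, w2, w3, w4, w5, w6, w7⟩ := hq
    obtain ⟨p, a1, a2, a3, ⟨k, hk⟩, a5, a6⟩ := Pool.Agent.Y680.S.exists_pair W w1 w2 w3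
    refine ⟨p, ?_, by rw [w4]; exact a5.symm⟩
    obtain ⟨a, b⟩ := p
    simp only at a1 a2 a3 hk a6
    have hb : 0 < b := by omega
    have hpos : 0 < a * b * (a + b) := by positivity
    have hk0 : 0 < k := by omega
    have hΔ : W.Δ = (k : ℤ) ^ 2 := by
      rw [hk] at a6
      have : 256 * W.Δ = 256 * (k : ℤ) ^ 2 := by rw [a6]; push_cast; ring
      linarith
    have hcond : conductor W = ∏ p ∈ k.primeFactors, p := by
      unfold conductor
      rw [hΔ, Int.natAbs_pow, Int.natAbs_natCast, Nat.primeFactors_pow _ (by norm_num)]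
    have hcpos : 1 ≤ conductor W := by
      rw [hcond]
      exact Finset.prod_pos fun p hp => (Nat.prime_of_mem_primeFactors hp).pos
    have hrad : ∏ p ∈ (a * b * (a + b)).primeFactors, p ≤ 2 * conductor W := by
      rw [hk, hcond]
      by_cases h : 2 ∣ k
      · have h1 := Pool.Agent.Y680.S.rd_16_even hk0 h
        have h2 : (∏ p ∈ (16 * k).primeFactors, p : ℕ) = ∏ p ∈ k.primeFactors, p := h1
        rw [h2]
        omega
      · have h1 := Pool.Agent.Y680.S.rd_16_odd hk0 h
        have h2 : (∏ p ∈ (16 * k).primeFactors, p : ℕ) = 2 * ∏ p ∈ k.primeFactors, p := h1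
        rw [h2]
    have hcX : conductor W < 2 ^ (i + 1) := by
      rw [← w5]
      exact Nat.lt_pow_succ_log_self (by norm_num) _
    have hcX' : 2 ^ i ≤ conductor W := by
      rw [← w5]
      exact Nat.pow_log_le_self 2 (by omega)
    have hX : ∏ p ∈ (a * b * (a + b)).primeFactors, p ≤ 4 * 2 ^ i := by
      rw [pow_succ] at hcX
      omega
    have hab : Nat.Coprime a (b * (a + b)) := by
      refine Nat.Coprime.mul_right a3 ?_
      rw [Nat.coprime_self_add_right]
      exact a3
    have hba : Nat.Coprime b (a * (a + b)) := by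
      refine Nat.Coprime.mul_right a3.symm ?_
      rw [Nat.coprime_add_self_right]
      exact a3.symm
    have hca : Nat.Coprime (a + b) (a * b) := by
      refine Nat.Coprime.mul_right ?_ ?_
      · rw [Nat.coprime_comm, Nat.coprime_self_add_right]
        exact a3
      · rw [Nat.coprime_comm, Nat.coprime_add_self_right]
        exact a3.symm
    refine ⟨a1, hb, a3, ?_, ?_, ?_, ?_⟩
    · exact member hk0 hk hΔ (r := b * (a + b)) (by ring) hab w6 hX
    · exact member hk0 hk hΔ (r := a * (a + b)) (by ring) hba w6 hX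
    · exact member hk0 hk hΔ (r := a * b) (by ring) hca w6 hX
    · -- the size of `c`
      show (4 * 2 ^ i) ^ K ≤ a + b
      obtain ⟨N, hN⟩ : ∃ N, N = conductor W := ⟨_, rfl⟩
      rw [← hN] at w7 hcpos hcX'
      have hN2 : 2 ≤ N := by
        by_contra hcon
        have hN1 : N = 1 := by omega
        rw [hN1] at w7
        have hk1 : k = 1 := by
          by_contra hk1
          obtain ⟨q, hq, hqk⟩ := Nat.exists_prime_and_dvd hk1
          have h1 : q ∣ N := by
            rw [hN, hcond]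
            exact Finset.dvd_prod_of_mem _ (Nat.mem_primeFactors.2 ⟨hq, hqk, hk0.ne'⟩)
          rw [hN1] at h1
          exact hq.one_lt.ne' (Nat.dvd_one.1 h1)
        rw [hΔ, hk1] at w7
        norm_num at w7
      by_contra hcon
      rw [not_le] at hcon
      have h1 : (4 * 2 ^ i) ^ K ≤ N ^ (3 * K) := by
        rw [pow_mul]
        refine Nat.pow_le_pow_left ?_ K
        have h2 : 4 ≤ N ^ 2 := by nlinarith
        calc 4 * 2 ^ i ≤ N ^ 2 * N := Nat.mul_le_mul h2 hcX'
          _ = N ^ 3 := by ring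
      have h2 : a + b ≤ N ^ (3 * K) := hcon.le.trans h1
      have h3 : (a + b) ^ 6 ≤ N ^ (18 * K + 18) := by
        calc (a + b) ^ 6 ≤ (N ^ (3 * K)) ^ 6 := Nat.pow_le_pow_left h2 6
          _ = N ^ (18 * K) := by rw [← pow_mul]; congr 1; ring
          _ ≤ N ^ (18 * K + 18) := Nat.pow_le_pow_right (by omega) (by omega)
      have h4 : (N : ℝ) ^ κ = ((N ^ (18 * K + 18) : ℕ) : ℝ) := by
        rw [hκ, show (18 * (K : ℝ) + 18) = ((18 * K + 18 : ℕ) : ℝ) by push_cast; ring,
          Real.rpow_natCast]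
        push_cast
        rfl
      have h5 : |(W.Δ : ℝ)| = ((k ^ 2 : ℕ) : ℝ) := by
        rw [hΔ]
        push_cast
        rw [abs_of_nonneg (by positivity)]
      rw [h4, h5] at w7
      have h6 : N ^ (18 * K + 18) < k ^ 2 := by exact_mod_cast w7
      have h7 : k ≤ (a + b) ^ 3 := by
        have h8 : a * b * (a + b) ≤ (a + b) * (a + b) * (a + b) :=
          Nat.mul_le_mul_right _ (Nat.mul_le_mul (by omega) (by omega))
        calc k ≤ 16 * k := by omega
          _ = a * b * (a + b) := hk.symm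
          _ ≤ (a + b) * (a + b) * (a + b) := h8
          _ = (a + b) ^ 3 := by ring
      have h9 : k ^ 2 ≤ (a + b) ^ 6 := by
        calc k ^ 2 ≤ ((a + b) ^ 3) ^ 2 := Nat.pow_le_pow_left h7 2
          _ = (a + b) ^ 6 := by ring
      omega
  have hDi : ∀ i, (D i).Finite ∧ ((D i).ncard : ℝ) ≤ ((4 * 2 ^ i : ℕ) : ℝ) ^ (ε / 2) := by
    intro i
    obtain ⟨h1, h2⟩ := hK (4 * 2 ^ i)
    refine ⟨(h1.image _).subset (hsub i), le_trans ?_ h2⟩
    exact_mod_cast (Set.ncard_le_ncard (hsub i) (h1.image _)).trans (Set.ncard_image_le h1)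
  refine ⟨κ, (1 / ((ε / 2) * Real.log 2) + 1) * 4 ^ (ε / 2), ?_, ?_, fun X hX => ?_⟩
  · rw [hκ]
    have : (0 : ℝ) ≤ K := Nat.cast_nonneg K
    linarith
  · have hl2 : 0 < Real.log 2 := Real.log_pos (by norm_num)
    positivity
  have hX0 : 0 < X := by linarith
  have hl2 : 0 < Real.log 2 := Real.log_pos (by norm_num)
  obtain ⟨L, hL⟩ : ∃ L : ℕ, L = Nat.log 2 ⌊X⌋₊ := ⟨_, rfl⟩
  have hfl : 1 ≤ ⌊X⌋₊ := Nat.le_floor (by exact_mod_cast hX)
  have h2L : ∀ i ≤ L, ((2 ^ i : ℕ) : ℝ) ≤ X := by
    intro i hi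
    have h1 : 2 ^ i ≤ ⌊X⌋₊ := by
      calc 2 ^ i ≤ 2 ^ L := Nat.pow_le_pow_right (by norm_num) hi
        _ ≤ ⌊X⌋₊ := by rw [hL]; exact Nat.pow_log_le_self 2 (by omega)
    exact le_trans (by exact_mod_cast h1) (Nat.floor_le hX0.le)
  have hcov : Violations n κ X ⊆ ⋃ i ∈ Finset.range (L + 1), D i := by
    rintro q ⟨W, w1, w2, w3, w4, w5, w6, w7⟩
    rw [Set.mem_iUnion₂]
    refine ⟨Nat.log 2 (conductor W), ?_, ?_⟩
    · rw [Finset.mem_range, hL]
      exact Nat.lt_succ_of_le (Nat.log_mono_right (Nat.le_floor w5))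
    · rw [hD]
      exact ⟨W, w1, w2, w3, w4, rfl, w6, w7⟩
  have hfin : (⋃ i ∈ Finset.range (L + 1), D i).Finite :=
    Set.Finite.biUnion (Finset.finite_toSet _) fun i _ => (hDi i).1
  refine ⟨hfin.subset hcov, ?_⟩
  have hc1 : ((⋃ i ∈ Finset.range (L + 1), D i).ncard : ℝ) ≤
      ∑ i ∈ Finset.range (L + 1), ((D i).ncard : ℝ) := by
    have : (⋃ i ∈ Finset.range (L + 1), D i).ncard ≤ ∑ i ∈ Finset.range (L + 1), (D i).ncard := by
      generalize Finset.range (L + 1) = S
      induction S using Finset.induction_on with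
      | empty => simp
      | insert a S ha ih =>
        rw [Finset.set_biUnion_insert, Finset.sum_insert ha]
        exact (Set.ncard_union_le _ _).trans (Nat.add_le_add_left ih _)
    exact_mod_cast this
  have hc2 : ∀ i ∈ Finset.range (L + 1), ((D i).ncard : ℝ) ≤ 4 ^ (ε / 2) * X ^ (ε / 2) := by
    intro i hi
    refine (hDi i).2.trans ?_
    push_cast
    rw [Real.mul_rpow (by norm_num) (by positivity)]
    refine mul_le_mul_of_nonneg_left ?_ (by positivity)
    refine Real.rpow_le_rpow (by positivity) ?_ (by positivity)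
    have := h2L i (by rw [Finset.mem_range] at hi; omega)
    push_cast at this
    exact this
  have hc3 : ((L + 1 : ℕ) : ℝ) ≤ (1 / ((ε / 2) * Real.log 2) + 1) * X ^ (ε / 2) := by
    have e1 : (2 : ℝ) ^ L ≤ X := by
      have := h2L L le_rfl
      push_cast at this
      exact this
    have e2 := Real.log_le_log (by positivity) e1
    rw [Real.log_pow] at e2
    have e3 : Real.log X ≤ X ^ (ε / 2) / (ε / 2) := Real.log_le_rpow_div hX0.le (by positivity)
    have e4 : (L : ℝ) ≤ 1 / ((ε / 2) * Real.log 2) * X ^ (ε / 2) := by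
      have e5 : (L : ℝ) * Real.log 2 ≤ X ^ (ε / 2) / (ε / 2) := e2.trans e3
      rw [div_mul_eq_mul_div, one_mul, le_div_iff₀ (by positivity)]
      rw [le_div_iff₀ (by positivity)] at e5
      linarith
    have e6 : 1 ≤ X ^ (ε / 2) := Real.one_le_rpow hX (by positivity)
    push_cast
    rw [add_mul, one_mul]
    linarith
  calc ((Violations n κ X).ncard : ℝ) ≤ ((⋃ i ∈ Finset.range (L + 1), D i).ncard : ℝ) := by
        exact_mod_cast Set.ncard_le_ncard hcov hfin
    _ ≤ ∑ i ∈ Finset.range (L + 1), ((D i).ncard : ℝ) := hc1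
    _ ≤ ∑ i ∈ Finset.range (L + 1), (4 ^ (ε / 2) * X ^ (ε / 2)) := Finset.sum_le_sum hc2
    _ = ((L + 1 : ℕ) : ℝ) * (4 ^ (ε / 2) * X ^ (ε / 2)) := by
        rw [Finset.sum_const, Finset.card_range, nsmul_eq_mul]
    _ ≤ ((1 / ((ε / 2) * Real.log 2) + 1) * X ^ (ε / 2)) * (4 ^ (ε / 2) * X ^ (ε / 2)) :=
        mul_le_mul_of_nonneg_right hc3 (by positivity)
    _ = (1 / ((ε / 2) * Real.log 2) + 1) * 4 ^ (ε / 2) * (X ^ (ε / 2) * X ^ (ε / 2)) := by ring
    _ = _ := by
        rw [← Real.rpow_add hX0]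
        congr 2
        ring

end Pool.Agent.Results.MP_d8bd92_nt.FewExponentsAllHeights
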