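import Mathlib
import Pool.Agent.Y680.S.Top
import Pool.Agent.Y911.RD.Main

/-!
# The conductors of the semistable elliptic curves with full rational 2-torsion

The set of the conductors `N ≤ X` of the semistable elliptic curves over `ℚ` with full rational
2-torsion, of whatever discriminant, has the same asymptotic number `κ X ^ (2/3)` as the set of all
these curves ordered by conductor.  For every `δ > 0` all but `C X ^ (2/3 - ν)` of these integers `N`
are the conductor of exactly ONE such curve, and this curve satisfies `N ^ 2 ≤ |Δ| ≤ N ^ (2 + δ)`.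

The proof: the curves correspond to the abc triples with `16 ∣ a b c`, with conductor `rad (a b c)` or
`rad (a b c) / 2` (`Pool/Agent/Y680/S`), and few abc triples of any height share their radical with another
one (`Pool/Agent/Y911/RD`).
-/

set_option autoImplicit false

namespace Pool.Agent.Results.MP_d8bd92_nt.ConductorDeterminesCurve

open Filter Topology
open Pool.Agent.Y680.S Pool.Agent.TH498.AR

/-- the product of the primes dividing `Δ(W)` (the conductor if `gcd(c₄, Δ) = 1`) -/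
def conductor (W : WeierstrassCurve ℤ) : ℕ := ∏ p ∈ W.Δ.natAbs.primeFactors, p

/-- all 2-torsion points are rational: `4x³ + b₂x² + 2b₄x + b₆` splits over `ℚ` -/
def FullTwoTorsion (W : WeierstrassCurve ℤ) : Prop :=
  ∃ r₁ r₂ r₃ : ℚ, ∀ x : ℚ,
    4 * x ^ 3 + W.b₂ * x ^ 2 + 2 * W.b₄ * x + W.b₆ = 4 * (x - r₁) * (x - r₂) * (x - r₃)

/-- `W` is a minimal model of a semistable elliptic curve over `ℚ` (`Δ ≠ 0` and `gcd(c₄, Δ) = 1`) with
full rational 2-torsion -/
def IsSemistable (W : WeierstrassCurve ℤ) : Prop :=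
  W.Δ ≠ 0 ∧ IsCoprime W.c₄ W.Δ ∧ FullTwoTorsion W

/-- the semistable elliptic curves over `ℚ` with full rational 2-torsion and conductor at most `X`, of
whatever discriminant, up to isomorphism: they are determined by the invariants `(c₄, c₆)` -/
def Curves (X : ℝ) : Set (ℤ × ℤ) :=
  {q | ∃ W : WeierstrassCurve ℤ, IsSemistable W ∧ q = (W.c₄, W.c₆) ∧ (conductor W : ℝ) ≤ X}

/-- the integers `N ≤ X` which are conductors of these curves -/
def Conductors (X : ℝ) : Set ℕ :=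
  {N | (N : ℝ) ≤ X ∧ ∃ W : WeierstrassCurve ℤ, IsSemistable W ∧ conductor W = N}

/-- `N` is the conductor of exactly one of these curves, up to isomorphism, and this curve satisfies
`N ^ 2 ≤ |Δ| ≤ N ^ (2 + δ)` -/
def Regular (δ : ℝ) (N : ℕ) : Prop :=
  ∃ W : WeierstrassCurve ℤ, IsSemistable W ∧ conductor W = N ∧
    (∀ W' : WeierstrassCurve ℤ, IsSemistable W' → conductor W' = N →
      W'.c₄ = W.c₄ ∧ W'.c₆ = W.c₆) ∧
    (N : ℝ) ^ 2 ≤ |(W.Δ : ℝ)| ∧ |(W.Δ : ℝ)| ≤ (N : ℝ) ^ (2 + δ)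

/-- the conductor of the curve of a pair -/
def cP (p : ℕ × ℕ) : ℕ := rd (p.1 * p.2 * (p.1 + p.2) / 16)

lemma cond_cP {W : WeierstrassCurve ℤ} {p : ℕ × ℕ} (h16 : 16 ∣ p.1 * p.2 * (p.1 + p.2))
    (hD : 256 * W.Δ = (((p.1 * p.2 * (p.1 + p.2) : ℕ)) : ℤ) ^ 2) : conductor W = cP p := by
  obtain ⟨k, hk⟩ := h16
  unfold cP
  rw [hk] at hD ⊢
  rw [Nat.mul_div_cancel_left _ (by norm_num)]
  have hΔ : W.Δ = (k : ℤ) ^ 2 := by
    have : 256 * W.Δ = 256 * (k : ℤ) ^ 2 := by rw [hD]; push_cast; ring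
    linarith
  unfold conductor rd
  rw [hΔ, Int.natAbs_pow, Int.natAbs_natCast, Nat.primeFactors_pow _ (by norm_num)]

lemma two_dvd_rd {k : ℕ} (hk : 0 < k) : 2 ∣ rd k ↔ 2 ∣ k := by
  constructor
  · exact fun h => h.trans (Nat.prod_primeFactors_dvd k)
  · intro h
    obtain ⟨m, hm, -⟩ := rd_two hk h
    exact ⟨m, hm⟩

/-- the conductor determines the radical -/
lemma rad_of_cP {p q : ℕ × ℕ} (hp : 0 < p.1) (hp' : 0 < p.2) (hq : 0 < q.1) (hq' : 0 < q.2)
    (h16 : 16 ∣ p.1 * p.2 * (p.1 + p.2)) (h16' : 16 ∣ q.1 * q.2 * (q.1 + q.2))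
    (h : cP p = cP q) :
    rd (p.1 * p.2 * (p.1 + p.2)) = rd (q.1 * q.2 * (q.1 + q.2)) := by
  have h1 : 0 < p.1 * p.2 * (p.1 + p.2) := by positivity
  have h2 : 0 < q.1 * q.2 * (q.1 + q.2) := by positivity
  unfold cP at h
  obtain ⟨k, hk⟩ := h16
  obtain ⟨l, hl⟩ := h16'
  rw [hk] at h1 h ⊢
  rw [hl] at h2 h ⊢
  rw [Nat.mul_div_cancel_left _ (by norm_num), Nat.mul_div_cancel_left _ (by norm_num)] at h
  have hk0 : 0 < k := by omega
  have hl0 : 0 < l := by omega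
  by_cases hk2 : 2 ∣ k
  · have hl2 : 2 ∣ l := by
      rw [← two_dvd_rd hl0, ← h, two_dvd_rd hk0]
      exact hk2
    rw [rd_16_even hk0 hk2, rd_16_even hl0 hl2, h]
  · have hl2 : ¬ 2 ∣ l := by
      rw [← two_dvd_rd hl0, ← h, two_dvd_rd hk0]
      exact hk2
    rw [rd_16_odd hk0 hk2, rd_16_odd hl0 hl2, h]

lemma curves_eq (X : ℝ) : Curves X = SC X := by
  ext q
  constructor
  · rintro ⟨W, ⟨w1, w2, w3⟩, w4, w5⟩
    exact ⟨W, w1, w2, w3, w4, w5⟩
  · rintro ⟨W, w1, w2, w3, w4, w5⟩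
    exact ⟨W, ⟨w1, w2, w3⟩, w4, w5⟩

/-- the data of a pair -/
lemma data {X : ℝ} {p : ℕ × ℕ} (hp : p ∈ GT th X) :
    16 ∣ p.1 * p.2 * (p.1 + p.2) ∧ ∃ W : WeierstrassCurve ℤ, IsSemistable W ∧
      (W.c₄, W.c₆) = ff p ∧ conductor W = cP p ∧ (conductor W : ℝ) ≤ X := by
  have h0 := theta_pos th_nonneg hp
  obtain ⟨a1, a2, a3, a4⟩ := hp
  have h16 := dvd_of_th a3 h0
  obtain ⟨W, w1, w2, w3, w4, w5⟩ := curve_of a1 a2 a3 h16
  exact ⟨h16, W, ⟨w1, w2, w3⟩, w4, cond_cP h16 w5, (cond_iff a1 (by omega) a3 h16 w5 X).2 a4⟩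

/-- the pair of a curve -/
lemma pair_of {X : ℝ} {W : WeierstrassCurve ℤ} (hW : IsSemistable W)
    (hX : (conductor W : ℝ) ≤ X) : ∃ p ∈ GT th X, (W.c₄, W.c₆) = ff p ∧ conductor W = cP p := by
  obtain ⟨w1, w2, w3⟩ := hW
  obtain ⟨p, a1, a2, a3, a4, a5, a6⟩ := exists_pair W w1 w2 w3
  exact ⟨p, ⟨a1, a2, a3, (cond_iff a1 (by omega) a3 a4 a6 X).1 hX⟩, a5, cond_cP a4 a6⟩

lemma conductors_eq (X : ℝ) : Conductors X = cP '' GT th X := by
  ext N
  constructor
  · rintro ⟨h1, W, hW, rfl⟩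
    obtain ⟨p, hp, -, h2⟩ := pair_of hW h1
    exact ⟨p, hp, h2.symm⟩
  · rintro ⟨p, hp, rfl⟩
    obtain ⟨-, W, hW, -, h2, h3⟩ := data hp
    rw [h2] at h3
    exact ⟨h3, W, hW, h2⟩

/-- two pairs with the same conductor -/
lemma shared_of {X : ℝ} (hX : 0 ≤ X) {p q : ℕ × ℕ} (hp : p ∈ GT th X) (hq : q ∈ GT th X)
    (h : cP p = cP q) (hne : q ≠ p) : p ∈ Pool.Agent.Y911.RD.shared (2 * X) := by
  refine ⟨GT_sub hX hp, q, GT_sub hX hq, hne, ?_⟩
  have h1 := (data hp).1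
  have h2 := (data hq).1
  obtain ⟨a1, a2, -, -⟩ := hp
  obtain ⟨b1, b2, -, -⟩ := hq
  exact (rad_of_cP a1 (by omega) b1 (by omega) h1 h2 h).symm

/-- the pairs whose curve has a large discriminant -/
def big (δ X : ℝ) : Set (ℕ × ℕ) :=
  {p | p ∈ GT th X ∧ ff p ∈ ({q | ∃ W : WeierstrassCurve ℤ, W.Δ ≠ 0 ∧ IsCoprime W.c₄ W.Δ ∧
      Pool.Agent.H925R.Szpiro.Full W ∧
      q = (W.c₄, W.c₆) ∧ (Pool.Agent.H925R.Szpiro.cond W : ℝ) ≤ X ∧
      (Pool.Agent.H925R.Szpiro.cond W : ℝ) ^ (2 + δ) < |(W.Δ : ℝ)|} : Set (ℤ × ℤ))}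

lemma big_le (δ : ℝ) (hδ : 0 < δ) : ∃ η C : ℝ, 0 < η ∧ 0 < C ∧ ∀ X : ℝ, 1 ≤ X →
    ((big δ X).ncard : ℝ) ≤ C * X ^ (2 / 3 - η) := by
  obtain ⟨η, C, hη, hC, h⟩ := main_exc δ hδ
  refine ⟨η, C, hη, hC, fun X hX => le_trans ?_ (h X hX)⟩
  refine Nat.cast_le.2 ?_
  refine Set.ncard_le_ncard_of_injOn ff (fun p hp => hp.2)
    ((ff_injOn X).mono fun p hp => hp.1) ?_
  refine Set.Finite.subset ((GT_finite X).image Pool.Agent.Y680.S.ff) ?_
  rw [← SC_eq]
  rintro q ⟨W, w1, w2, w3, w4, w5, -⟩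
  exact ⟨W, w1, w2, w3, w4, w5⟩

/-- a conductor which is not regular comes from an exceptional pair -/
lemma regular_of {δ X : ℝ} (hX : 0 ≤ X) {p : ℕ × ℕ} (hp : p ∈ GT th X)
    (h1 : p ∉ Pool.Agent.Y911.RD.shared (2 * X)) (h2 : p ∉ big δ X) : Regular δ (cP p) := by
  obtain ⟨-, W, hW, w4, w5, w6⟩ := data hp
  refine ⟨W, hW, w5, fun W' hW' hc => ?_, ?_, ?_⟩
  · have hX' : (conductor W' : ℝ) ≤ X := by rw [hc, ← w5]; exact w6
    obtain ⟨q, hq, q1, q2⟩ := pair_of hW' hX'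
    have hqp : q = p := by
      by_contra hne
      exact h1 (shared_of hX hp hq (by rw [← q2, hc]) hne)
    rw [hqp, ← w4] at q1
    exact ⟨congrArg Prod.fst q1, congrArg Prod.snd q1⟩
  · rw [← w5]
    exact disc_ge hW.1 hW.2.1 hW.2.2
  · by_contra hcon
    rw [not_le, ← w5] at hcon
    exact h2 ⟨hp, W, hW.1, hW.2.1, hW.2.2, w4.symm, w6, hcon⟩

/-- **The conductor of a semistable curve with full 2-torsion determines the curve, almost always.**
(1) There is `κ > 0` such that the number of the semistable elliptic curves over `ℚ` with full rational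
2-torsion and conductor at most `X` and the number of the integers `N ≤ X` which are conductors of
such curves are both asymptotic to `κ X ^ (2/3)`. (2) For every `δ > 0` there are `ν, C > 0` such that,
for all `X ≥ 1`, all but `C X ^ (2/3 - ν)` of these integers `N` are regular: `N` is the conductor of
exactly one such curve, and it satisfies `N ^ 2 ≤ |Δ| ≤ N ^ (2 + δ)`. -/
theorem result :
    (∀ X : ℝ, (Curves X).Finite ∧ (Conductors X).Finite) ∧
    (∃ κ : ℝ, 0 < κ ∧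
      Tendsto (fun X : ℝ => ((Curves X).ncard : ℝ) / X ^ ((2 : ℝ) / 3)) atTop (𝓝 κ) ∧
      Tendsto (fun X : ℝ => ((Conductors X).ncard : ℝ) / X ^ ((2 : ℝ) / 3)) atTop (𝓝 κ)) ∧
    ∀ δ : ℝ, 0 < δ → ∃ ν C : ℝ, 0 < ν ∧ 0 < C ∧ ∀ X : ℝ, 1 ≤ X →
      ({N | N ∈ Conductors X ∧ ¬ Regular δ N}.ncard : ℝ) ≤ C * X ^ (2 / 3 - ν) := by
  obtain ⟨ν1, C1, hν1, hν2, hC1, hs⟩ := Pool.Agent.Y911.RD.shared_le
  have hs2 : ∀ X : ℝ, 1 ≤ X → ((Pool.Agent.Y911.RD.shared (2 * X)).ncard : ℝ) ≤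
      C1 * 2 * X ^ (2 / 3 - ν1) := by
    intro X hX
    have hX0 : 0 < X := by linarith
    refine (hs (2 * X) (by linarith)).trans ?_
    rw [Real.mul_rpow (by norm_num) hX0.le]
    have e1 : (2 : ℝ) ^ (2 / 3 - ν1) ≤ 2 := by
      calc (2 : ℝ) ^ (2 / 3 - ν1) ≤ 2 ^ (1 : ℝ) :=
            Real.rpow_le_rpow_of_exponent_le (by norm_num) (by linarith)
        _ = 2 := Real.rpow_one _
    have e2 : 0 ≤ X ^ (2 / 3 - ν1) := by positivity
    calc C1 * (2 ^ (2 / 3 - ν1) * X ^ (2 / 3 - ν1)) ≤ C1 * (2 * X ^ (2 / 3 - ν1)) :=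
          mul_le_mul_of_nonneg_left (mul_le_mul_of_nonneg_right e1 e2) hC1.le
      _ = _ := by ring
  have hsf : ∀ X : ℝ, (Pool.Agent.Y911.RD.shared X).Finite := fun X =>
    (Pool.Agent.Y911.AA.triples_finite' X).subset fun p hp => hp.1
  have hfC : ∀ X : ℝ, (Curves X).Finite := by
    intro X
    rw [curves_eq, SC_eq]
    exact (GT_finite X).image _
  have hfN : ∀ X : ℝ, (Conductors X).Finite := by
    intro X
    rw [conductors_eq]
    exact (GT_finite X).image _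
  have hcard : ∀ X : ℝ, (Curves X).ncard = (GT th X).ncard := by
    intro X
    rw [curves_eq, SC_eq]
    exact (ff_injOn X).ncard_image
  have hup : ∀ X : ℝ, (Conductors X).ncard ≤ (Curves X).ncard := by
    intro X
    rw [hcard, conductors_eq]
    exact Set.ncard_image_le (GT_finite X)
  have hlow : ∀ X : ℝ, 0 ≤ X → (Curves X).ncard ≤ (Conductors X).ncard +
      (Pool.Agent.Y911.RD.shared (2 * X)).ncard := by
    intro X hX
    have h1 : (GT th X \ Pool.Agent.Y911.RD.shared (2 * X)).ncard ≤ (Conductors X).ncard := by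
      refine Set.ncard_le_ncard_of_injOn cP (fun p hp => ?_) ?_ (hfN X)
      · rw [conductors_eq]
        exact ⟨p, hp.1, rfl⟩
      · intro p hp q hq hpq
        by_contra hne
        exact hp.2 (shared_of hX hp.1 hq.1 hpq fun h => hne h.symm)
    have h2 : (GT th X).ncard ≤ (GT th X \ Pool.Agent.Y911.RD.shared (2 * X)).ncard +
        (Pool.Agent.Y911.RD.shared (2 * X)).ncard := by
      refine le_trans (Set.ncard_le_ncard (t := (GT th X \ Pool.Agent.Y911.RD.shared (2 * X)) ∪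
        Pool.Agent.Y911.RD.shared (2 * X)) ?_ ?_) (Set.ncard_union_le _ _)
      · intro p hp
        by_cases h : p ∈ Pool.Agent.Y911.RD.shared (2 * X)
        · exact Or.inr h
        · exact Or.inl ⟨hp, h⟩
      · exact ((GT_finite X).subset fun p hp => hp.1).union (hsf _)
    rw [hcard]
    omega
  refine ⟨fun X => ⟨hfC X, hfN X⟩, ?_, fun δ hδ => ?_⟩
  · obtain ⟨κ, hκ, h⟩ := main_asy
    have h' : Tendsto (fun X : ℝ => ((Curves X).ncard : ℝ) / X ^ ((2 : ℝ) / 3)) atTop (𝓝 κ) := by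
      simp only [curves_eq]
      exact h
    refine ⟨κ, hκ, h', ?_⟩
    have h1 : Tendsto (fun X : ℝ => C1 * 2 * X ^ (-ν1)) atTop (𝓝 0) := by
      have := (tendsto_rpow_neg_atTop hν1).const_mul (C1 * 2)
      rwa [mul_zero] at this
    have h2 := h'.sub h1
    rw [sub_zero] at h2
    refine tendsto_of_tendsto_of_tendsto_of_le_of_le' h2 h' ?_ ?_
    · filter_upwards [eventually_ge_atTop (1 : ℝ)] with X hX
      have hX0 : 0 < X := by linarith
      have hXp : 0 < X ^ ((2 : ℝ) / 3) := by positivity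
      have h3 : ((Curves X).ncard : ℝ) ≤ (Conductors X).ncard +
          (Pool.Agent.Y911.RD.shared (2 * X)).ncard := by exact_mod_cast hlow X hX0.le
      have h4 := hs2 X hX
      rw [sub_le_iff_le_add, div_le_iff₀ hXp, add_mul, div_mul_cancel₀ _ hXp.ne', mul_assoc (C1 * 2),
        ← Real.rpow_add hX0, show -ν1 + 2 / 3 = 2 / 3 - ν1 by ring]
      linarith
    · filter_upwards [eventually_ge_atTop (1 : ℝ)] with X hX
      have hX0 : 0 < X := by linarith
      have hXp : 0 < X ^ ((2 : ℝ) / 3) := by positivity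
      refine div_le_div_of_nonneg_right ?_ hXp.le
      exact_mod_cast hup X
  · obtain ⟨η, C2, hη, hC2, hb⟩ := big_le δ hδ
    refine ⟨min ν1 η, C1 * 2 + C2, lt_min hν1 hη, by positivity, fun X hX => ?_⟩
    have hX0 : 0 < X := by linarith
    have hsub : {N | N ∈ Conductors X ∧ ¬ Regular δ N} ⊆
        cP '' (Pool.Agent.Y911.RD.shared (2 * X) ∪ big δ X) := by
      rintro N ⟨h1, h2⟩
      rw [conductors_eq] at h1
      obtain ⟨p, hp, rfl⟩ := h1
      refine ⟨p, ?_, rfl⟩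
      by_contra hcon
      rw [Set.mem_union, not_or] at hcon
      exact h2 (regular_of hX0.le hp hcon.1 hcon.2)
    have hbf : (big δ X).Finite := (GT_finite X).subset fun p hp => hp.1
    have hfin : (Pool.Agent.Y911.RD.shared (2 * X) ∪ big δ X).Finite := (hsf _).union hbf
    have h3 : ({N | N ∈ Conductors X ∧ ¬ Regular δ N}.ncard : ℝ) ≤
        ((Pool.Agent.Y911.RD.shared (2 * X)).ncard : ℝ) + ((big δ X).ncard : ℝ) := by
      have := (Set.ncard_le_ncard hsub (hfin.image _)).trans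
        ((Set.ncard_image_le hfin).trans (Set.ncard_union_le _ _))
      exact_mod_cast this
    have k1 : X ^ (2 / 3 - ν1) ≤ X ^ (2 / 3 - min ν1 η) :=
      Real.rpow_le_rpow_of_exponent_le hX (by linarith [min_le_left ν1 η])
    have k2 : X ^ (2 / 3 - η) ≤ X ^ (2 / 3 - min ν1 η) :=
      Real.rpow_le_rpow_of_exponent_le hX (by linarith [min_le_right ν1 η])
    have k3 := (hs2 X hX).trans (mul_le_mul_of_nonneg_left k1 (by positivity))
    have k4 := (hb X hX).trans (mul_le_mul_of_nonneg_left k2 hC2.le)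
    linarith

end Pool.Agent.Results.MP_d8bd92_nt.ConductorDeterminesCurve
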