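import Mathlib
import Pool.Agent.Y680.S.Top
import Pool.Agent.Results.MP_7aad9f_nt.MultiplesThreeHalves

/-!
# The least conductor of a semistable curve whose discriminant is divisible by `n`

We consider the semistable elliptic curves over `ℚ` with full rational 2-torsion, of whatever height,
whose minimal discriminant is divisible by the integer `n`.  For all but `C X ^ (1 - ε / 20)` of the
integers `n ≤ X` the least conductor of such a curve is `max (n ^ (3/2), n P(n))` up to a factor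
`n ^ (± ε)`, where `P(n)` is the largest prime factor of `n`.

(Szpiro's conjecture bounds the discriminant in terms of the conductor; for these `n` the conductor
cannot be smaller than `n ^ (3/2 - ε)`, although `n` divides the discriminant and only `n ≤ N ^ (6 + ε)` is
conjectured.)

The proof: the curves correspond to the abc triples with `16 ∣ a b c`, with `Δ = (a b c / 16) ^ 2`
(`Pool/Agent/Y680/S`); if `n = s t ^ 2` with `s` squarefree, then `n` divides `Δ` if and only if `16 s t`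
divides `a b c`, and for almost all `n` the least radical of such a triple is known
(`MP_7aad9f_nt.MultiplesThreeHalves`).
-/

set_option autoImplicit false

namespace Pool.Agent.Results.MP_d8bd92_nt.LeastConductorOfMultiples

open Finset

/-- the product of the primes dividing `Δ(W)` (the conductor if `gcd(c₄, Δ) = 1`) -/
def conductor (W : WeierstrassCurve ℤ) : ℕ := ∏ p ∈ W.Δ.natAbs.primeFactors, p

/-- all 2-torsion points are rational: `4x³ + b₂x² + 2b₄x + b₆` splits over `ℚ` -/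
def FullTwoTorsion (W : WeierstrassCurve ℤ) : Prop :=
  ∃ r₁ r₂ r₃ : ℚ, ∀ x : ℚ,
    4 * x ^ 3 + W.b₂ * x ^ 2 + 2 * W.b₄ * x + W.b₆ = 4 * (x - r₁) * (x - r₂) * (x - r₃)

/-- `W` is a minimal model of a semistable elliptic curve over `ℚ` (`Δ ≠ 0` and `gcd(c₄, Δ) = 1`) with
full rational 2-torsion -/
def IsSemistable (W : WeierstrassCurve ℤ) : Prop :=
  W.Δ ≠ 0 ∧ IsCoprime W.c₄ W.Δ ∧ FullTwoTorsion W

/-- the largest prime factor of `n` (`0` for `n = 1`) -/
def largestPrime (n : ℕ) : ℕ := n.primeFactors.sup id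

/-- the larger of `n ^ (3/2)` and `n P(n)` -/
noncomputable def M (n : ℕ) : ℝ := max ((n : ℝ) ^ (3 / 2 : ℝ)) ((n : ℝ) * largestPrime n)

/-- every semistable elliptic curve over `ℚ` with full rational 2-torsion (of whatever height) whose
minimal discriminant is divisible by `n` has conductor larger than `M(n) n ^ (-ε)`, and one of them has
conductor at most `M(n) n ^ ε` -/
def Regular (ε : ℝ) (n : ℕ) : Prop :=
  (∀ W : WeierstrassCurve ℤ, IsSemistable W → (n : ℤ) ∣ W.Δ →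
    M n * (n : ℝ) ^ (-ε) < (conductor W : ℝ)) ∧
  ∃ W : WeierstrassCurve ℤ, IsSemistable W ∧ (n : ℤ) ∣ W.Δ ∧
    (conductor W : ℝ) ≤ M n * (n : ℝ) ^ ε

lemma key_dvd {s t k : ℕ} (hs : Squarefree s) (h : s * t ^ 2 ∣ k ^ 2) : s * t ∣ k := by
  have h1 : t ∣ k := by
    rw [← Nat.pow_dvd_pow_iff (n := 2) (by norm_num)]
    exact (Dvd.intro_left _ rfl).trans h
  obtain ⟨l, rfl⟩ := h1
  rcases Nat.eq_zero_or_pos t with h0 | h0
  · subst h0; simp
  have h2 : s ∣ l ^ 2 := by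
    have h3 : t ^ 2 * s ∣ t ^ 2 * l ^ 2 := by
      rw [mul_comm (t ^ 2) s, ← mul_pow]
      exact h
    exact Nat.dvd_of_mul_dvd_mul_left (by positivity) h3
  have h4 : s ∣ l := (hs.dvd_pow_iff_dvd (by norm_num)).1 h2
  rw [mul_comm s t]
  exact Nat.mul_dvd_mul_left t h4

lemma lp_mul {m n : ℕ} (hm : m ≠ 0) (hn : n ≠ 0) :
    largestPrime (m * n) = max (largestPrime m) (largestPrime n) := by
  unfold largestPrime
  rw [Nat.primeFactors_mul hm hn, Finset.sup_union]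

lemma lp_sixteen : largestPrime 16 = 2 := by
  unfold largestPrime
  rw [show (16 : ℕ) = 2 ^ 4 by norm_num, Nat.primeFactors_prime_pow (by norm_num) Nat.prime_two]
  simp

lemma lp_sq {t : ℕ} : largestPrime (t ^ 2) = largestPrime t := by
  unfold largestPrime
  rw [Nat.primeFactors_pow _ (by norm_num)]

lemma lp_ge_two {n : ℕ} (hn : 2 ≤ n) : 2 ≤ largestPrime n := by
  obtain ⟨p, hp, hd⟩ := Nat.exists_prime_and_dvd (by omega : n ≠ 1)
  have h1 : p ∈ n.primeFactors := Nat.mem_primeFactors.2 ⟨hp, hd, by omega⟩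
  exact hp.two_le.trans (Finset.le_sup (f := id) h1)

/-- the data of a curve -/
lemma curve_data {W : WeierstrassCurve ℤ} (hW : IsSemistable W) : ∃ a b k : ℕ, 0 < a ∧ 0 < b ∧
    Nat.gcd a b = 1 ∧ a * b * (a + b) = 16 * k ∧ 0 < k ∧ W.Δ = (k : ℤ) ^ 2 ∧
    conductor W = ∏ p ∈ k.primeFactors, p := by
  obtain ⟨w1, w2, w3⟩ := hW
  obtain ⟨p, a1, a2, a3, a4, a5, a6⟩ := Pool.Agent.Y680.S.exists_pair W w1 w2 w3
  obtain ⟨k, hk⟩ := a4
  have h1 : 0 < p.1 * p.2 * (p.1 + p.2) := by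
    have : 0 < p.2 := by omega
    positivity
  have hk0 : 0 < k := by omega
  have hΔ : W.Δ = (k : ℤ) ^ 2 := by
    rw [hk] at a6
    have : 256 * W.Δ = 256 * (k : ℤ) ^ 2 := by rw [a6]; push_cast; ring
    linarith
  refine ⟨p.1, p.2, k, a1, by omega, a3, hk, hk0, hΔ, ?_⟩
  unfold conductor
  rw [hΔ, Int.natAbs_pow, Int.natAbs_natCast, Nat.primeFactors_pow _ (by norm_num)]

/-- the curve of a triple -/
lemma curve_exists {a b k : ℕ} (ha : 0 < a) (hb : 0 < b) (hab : Nat.gcd a b = 1)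
    (h : a * b * (a + b) = 16 * k) : ∃ W : WeierstrassCurve ℤ, IsSemistable W ∧
      W.Δ = (k : ℤ) ^ 2 ∧ conductor W = ∏ p ∈ k.primeFactors, p := by
  obtain ⟨W, w1, w2, w3, -, w5⟩ := Pool.Agent.Y680.S.exists_curve ha hb hab ⟨k, h⟩
  have hΔ : W.Δ = (k : ℤ) ^ 2 := by
    rw [h] at w5
    have : 256 * W.Δ = 256 * (k : ℤ) ^ 2 := by rw [w5]; push_cast; ring
    linarith
  refine ⟨W, ⟨w1, w2, w3⟩, hΔ, ?_⟩
  unfold conductor
  rw [hΔ, Int.natAbs_pow, Int.natAbs_natCast, Nat.primeFactors_pow _ (by norm_num)]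

lemma rad_16 {k : ℕ} (hk : 0 < k) :
    ((∏ p ∈ (16 * k).primeFactors, p : ℕ) : ℝ) ≤ 2 * ((∏ p ∈ k.primeFactors, p : ℕ) : ℝ) := by
  by_cases h : 2 ∣ k
  · have h1 := Pool.Agent.Y680.S.rd_16_even hk h
    have h2 : (∏ p ∈ (16 * k).primeFactors, p : ℕ) = ∏ p ∈ k.primeFactors, p := h1
    rw [h2]
    have : (0 : ℝ) ≤ ((∏ p ∈ k.primeFactors, p : ℕ) : ℝ) := Nat.cast_nonneg _
    linarith
  · have h1 := Pool.Agent.Y680.S.rd_16_odd hk h
    have h2 : (∏ p ∈ (16 * k).primeFactors, p : ℕ) = 2 * ∏ p ∈ k.primeFactors, p := h1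
    rw [h2]
    push_cast
    exact le_rfl

lemma rad_le_16 {k : ℕ} (hk : 0 < k) :
    ((∏ p ∈ k.primeFactors, p : ℕ) : ℝ) ≤ ((∏ p ∈ (16 * k).primeFactors, p : ℕ) : ℝ) := by
  have h : k.primeFactors ⊆ (16 * k).primeFactors :=
    Nat.primeFactors_mono (Dvd.intro_left _ rfl) (by omega)
  have h2 : (∏ p ∈ k.primeFactors, p : ℕ) ≤ ∏ p ∈ (16 * k).primeFactors, p :=
    Finset.prod_le_prod_of_subset_of_one_le' h fun p hp _ =>
      (Nat.prime_of_mem_primeFactors hp).one_le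
  exact_mod_cast h2

open Pool.Agent.Results.MP_7aad9f_nt in
/-- one integer -/
lemma regular_of {ε : ℝ} (hε : 0 < ε) (hε1 : ε ≤ 1) {N n s t : ℕ} (hs : Squarefree s)
    (hn : n = s * t ^ 2) (hn2 : 2 ≤ n) (hnN : (N : ℝ) < (n : ℝ) ^ 2) (hN : 1 ≤ N)
    (ht : (t : ℝ) ≤ (N : ℝ) ^ (ε / 20)) (hbig : (1024 : ℝ) ≤ (N : ℝ) ^ (ε / 10))
    (hreg : MultiplesThreeHalves.Regular (ε / 2) (16 * (s * t))) : Regular ε n := by
  have hs0 : 0 < s := Nat.pos_of_ne_zero (by rintro rfl; simp at hn; omega)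
  have ht0 : 0 < t := Nat.pos_of_ne_zero (by rintro rfl; simp at hn; omega)
  have hnR : (2 : ℝ) ≤ n := by exact_mod_cast hn2
  have hn0 : (0 : ℝ) < n := by linarith
  have hn1 : (1 : ℝ) ≤ n := by linarith
  have hNR : (1 : ℝ) ≤ N := by exact_mod_cast hN
  have hN0 : (0 : ℝ) < N := by linarith
  have htR : (1 : ℝ) ≤ t := by exact_mod_cast ht0
  have ht1 : (0 : ℝ) < t := by linarith
  obtain ⟨m, hm⟩ : ∃ m, m = 16 * (s * t) := ⟨_, rfl⟩
  rw [← hm] at hreg
  have hnst : (n : ℝ) = (s * t : ℕ) * t := by rw [hn]; push_cast; ring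
  have hst1 : (1 : ℝ) ≤ ((s * t : ℕ) : ℝ) := by
    have : 0 < s * t := by positivity
    exact_mod_cast this
  have hstn : ((s * t : ℕ) : ℝ) ≤ n := by
    rw [hnst]
    nlinarith
  have hmR : (m : ℝ) = 16 * ((s * t : ℕ) : ℝ) := by rw [hm]; push_cast; ring
  have hm1 : (1 : ℝ) ≤ m := by rw [hmR]; linarith
  have hm0 : (0 : ℝ) < m := by linarith
  -- the largest prime factors
  have hP : largestPrime m = max 2 (largestPrime n) := by
    rw [hm, lp_mul (by norm_num) (by positivity), lp_sixteen, lp_mul hs0.ne' ht0.ne', hn,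
      lp_mul hs0.ne' (by positivity), lp_sq]
  have hPn : largestPrime m = largestPrime n := by
    rw [hP]
    exact max_eq_right (lp_ge_two hn2)
  have hMm : MultiplesThreeHalves.M m = max ((m : ℝ) ^ (3 / 2 : ℝ)) ((m : ℝ) * largestPrime m) := rfl
  have hLP : (0 : ℝ) ≤ (largestPrime n : ℝ) := Nat.cast_nonneg _
  -- `N ^ (ε / 20)`
  have hNt : (1 : ℝ) ≤ (N : ℝ) ^ (ε / 20) := Real.one_le_rpow hNR (by positivity)
  have hNn : (N : ℝ) ^ (ε / 4) ≤ (n : ℝ) ^ (ε / 2) := by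
    calc (N : ℝ) ^ (ε / 4) ≤ ((n : ℝ) ^ 2) ^ (ε / 4) :=
          Real.rpow_le_rpow hN0.le hnN.le (by positivity)
      _ = (n : ℝ) ^ (ε / 2) := by
          rw [← Real.rpow_natCast (n : ℝ) 2, ← Real.rpow_mul hn0.le]
          congr 1
          push_cast
          ring
  -- comparison of `M`
  have hMlow : M n ≤ MultiplesThreeHalves.M m * (t : ℝ) ^ 2 := by
    have e0 : (n : ℝ) ≤ m * t := by rw [hmR, hnst]; nlinarith [mul_pos (lt_of_lt_of_le one_pos hst1) ht1]
    unfold M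
    refine max_le ?_ ?_
    · calc (n : ℝ) ^ (3 / 2 : ℝ) ≤ (m * t : ℝ) ^ (3 / 2 : ℝ) :=
            Real.rpow_le_rpow hn0.le e0 (by norm_num)
        _ = (m : ℝ) ^ (3 / 2 : ℝ) * (t : ℝ) ^ (3 / 2 : ℝ) := Real.mul_rpow hm0.le ht1.le
        _ ≤ MultiplesThreeHalves.M m * (t : ℝ) ^ 2 := by
            refine mul_le_mul ?_ ?_ (by positivity) ?_
            · rw [hMm]; exact le_max_left _ _
            · rw [← Real.rpow_natCast (t : ℝ) 2]
              exact Real.rpow_le_rpow_of_exponent_le htR (by norm_num)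
            · rw [hMm]; exact le_trans (by positivity) (le_max_left _ _)
    · calc (n : ℝ) * largestPrime n ≤ (m * t) * largestPrime n :=
            mul_le_mul_of_nonneg_right e0 hLP
        _ = (m * largestPrime m) * t := by rw [hPn]; ring
        _ ≤ MultiplesThreeHalves.M m * (t : ℝ) ^ 2 := by
            refine mul_le_mul ?_ ?_ ht1.le ?_
            · rw [hMm]; exact le_max_right _ _
            · nlinarith
            · rw [hMm]; exact le_trans (by positivity) (le_max_left _ _)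
  have hMup : MultiplesThreeHalves.M m ≤ 64 * M n := by
    have e0 : (m : ℝ) ≤ 16 * n := by rw [hmR]; linarith
    rw [hMm]
    have e1 : (16 : ℝ) ^ (3 / 2 : ℝ) = 64 := by
      rw [show (16 : ℝ) = 4 ^ (2 : ℝ) by norm_num, ← Real.rpow_mul (by norm_num)]
      norm_num
    refine max_le ?_ ?_
    · calc (m : ℝ) ^ (3 / 2 : ℝ) ≤ (16 * n : ℝ) ^ (3 / 2 : ℝ) :=
            Real.rpow_le_rpow hm0.le e0 (by norm_num)
        _ = 64 * (n : ℝ) ^ (3 / 2 : ℝ) := by rw [Real.mul_rpow (by norm_num) hn0.le, e1]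
        _ ≤ 64 * M n := mul_le_mul_of_nonneg_left (le_max_left _ _) (by norm_num)
    · rw [hPn]
      calc (m : ℝ) * largestPrime n ≤ (16 * n) * largestPrime n :=
            mul_le_mul_of_nonneg_right e0 hLP
        _ ≤ 64 * ((n : ℝ) * largestPrime n) := by nlinarith [mul_nonneg hn0.le hLP]
        _ ≤ 64 * M n := mul_le_mul_of_nonneg_left (le_max_right _ _) (by norm_num)
  have hMpos : 0 < M n := lt_of_lt_of_le (by positivity) (le_max_left _ _)
  have hm4 : (m : ℝ) ^ (ε / 2) ≤ 4 * (n : ℝ) ^ (ε / 2) := by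
    calc (m : ℝ) ^ (ε / 2) ≤ (16 * n : ℝ) ^ (ε / 2) := by
          refine Real.rpow_le_rpow hm0.le ?_ (by positivity)
          rw [hmR]; linarith
      _ = 16 ^ (ε / 2) * (n : ℝ) ^ (ε / 2) := Real.mul_rpow (by norm_num) hn0.le
      _ ≤ 4 * (n : ℝ) ^ (ε / 2) := by
          refine mul_le_mul_of_nonneg_right ?_ (by positivity)
          calc (16 : ℝ) ^ (ε / 2) ≤ 16 ^ (1 / 2 : ℝ) :=
                Real.rpow_le_rpow_of_exponent_le (by norm_num) (by linarith)
            _ = 4 := by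
                rw [show (16 : ℝ) = 4 ^ (2 : ℝ) by norm_num, ← Real.rpow_mul (by norm_num)]
                norm_num
  constructor
  · intro W hW hd
    obtain ⟨a, b, k, ha, hb, hab, hprod, hk, hΔ, hc⟩ := curve_data hW
    have h1 : s * t ∣ k := by
      refine key_dvd hs ?_
      rw [← hn]
      rw [hΔ] at hd
      exact_mod_cast hd
    have h2 : m ∣ a * b * (a + b) := by
      rw [hm, hprod]
      exact Nat.mul_dvd_mul_left 16 h1
    have h3 := hreg.1 a b (a + b) ⟨ha, hb, rfl, hab⟩ h2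
    have h4 : (MultiplesThreeHalves.radical (a * b * (a + b)) : ℝ) ≤ 2 * (conductor W : ℝ) := by
      rw [hc, hprod]
      exact rad_16 hk
    have h5 : (m : ℝ) ^ (-(ε / 2)) = ((m : ℝ) ^ (ε / 2))⁻¹ := Real.rpow_neg hm0.le _
    have h6 : (n : ℝ) ^ (-ε) = ((n : ℝ) ^ ε)⁻¹ := Real.rpow_neg hn0.le _
    have h7 : MultiplesThreeHalves.M m < 2 * (conductor W : ℝ) * (m : ℝ) ^ (ε / 2) := by
      have := lt_of_lt_of_le h3 h4
      rw [h5, ← div_eq_mul_inv, div_lt_iff₀ (by positivity)] at this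
      exact this
    rw [h6, ← div_eq_mul_inv, div_lt_iff₀ (by positivity)]
    have hc0 : (0 : ℝ) ≤ (conductor W : ℝ) := Nat.cast_nonneg _
    have ht2 : (t : ℝ) ^ 2 ≤ (N : ℝ) ^ (ε / 10) := by
      calc (t : ℝ) ^ 2 ≤ ((N : ℝ) ^ (ε / 20)) ^ 2 := pow_le_pow_left₀ ht1.le ht 2
        _ = (N : ℝ) ^ (ε / 10) := by
            rw [← Real.rpow_natCast ((N : ℝ) ^ (ε / 20)) 2, ← Real.rpow_mul hN0.le]
            congr 1
            push_cast
            ring
    have h9 : M n < 8 * (conductor W : ℝ) * (n : ℝ) ^ (ε / 2) * (N : ℝ) ^ (ε / 10) := by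
      calc M n ≤ MultiplesThreeHalves.M m * (t : ℝ) ^ 2 := hMlow
        _ < 2 * (conductor W : ℝ) * (m : ℝ) ^ (ε / 2) * (t : ℝ) ^ 2 :=
            mul_lt_mul_of_pos_right h7 (by positivity)
        _ ≤ 2 * (conductor W : ℝ) * (4 * (n : ℝ) ^ (ε / 2)) * (N : ℝ) ^ (ε / 10) := by
            refine mul_le_mul (mul_le_mul_of_nonneg_left hm4 (by positivity)) ht2 (by positivity)
              (by positivity)
        _ = _ := by ring
    have h10 : 8 * (N : ℝ) ^ (ε / 10) ≤ (n : ℝ) ^ (ε / 2) := by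
      refine le_trans ?_ hNn
      have e1 : (N : ℝ) ^ (ε / 4) = (N : ℝ) ^ (ε / 10) * (N : ℝ) ^ (3 * ε / 20) := by
        rw [← Real.rpow_add hN0]
        congr 1
        ring
      have e2 : (N : ℝ) ^ (ε / 10) ≤ (N : ℝ) ^ (3 * ε / 20) :=
        Real.rpow_le_rpow_of_exponent_le hNR (by linarith)
      rw [e1]
      nlinarith
    calc M n < 8 * (conductor W : ℝ) * (n : ℝ) ^ (ε / 2) * (N : ℝ) ^ (ε / 10) := h9
      _ = (conductor W : ℝ) * ((n : ℝ) ^ (ε / 2) * (8 * (N : ℝ) ^ (ε / 10))) := by ring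
      _ ≤ (conductor W : ℝ) * ((n : ℝ) ^ (ε / 2) * (n : ℝ) ^ (ε / 2)) := by
          refine mul_le_mul_of_nonneg_left (mul_le_mul_of_nonneg_left h10 (by positivity)) hc0
      _ = (conductor W : ℝ) * (n : ℝ) ^ ε := by
          rw [← Real.rpow_add hn0]
          congr 2
          ring
  · obtain ⟨a, b, c, ⟨ha, hb, hc, hab⟩, hd, hr⟩ := hreg.2
    subst hc
    rw [hm] at hd
    obtain ⟨l, hl⟩ := hd
    have hprod : a * b * (a + b) = 16 * (s * t * l) := by rw [hl]; ring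
    have hpos : 0 < a * b * (a + b) := by positivity
    have hk : 0 < s * t * l := by omega
    obtain ⟨W, hW, hΔ, hcW⟩ := curve_exists ha hb hab hprod
    refine ⟨W, hW, ?_, ?_⟩
    · rw [hΔ, hn]
      refine ⟨(s * l ^ 2 : ℕ), ?_⟩
      push_cast
      ring
    · have h1 : (conductor W : ℝ) ≤ (MultiplesThreeHalves.radical (a * b * (a + b)) : ℝ) := by
        rw [hcW, hprod]
        exact rad_le_16 hk
      calc (conductor W : ℝ) ≤ MultiplesThreeHalves.M m * (m : ℝ) ^ (ε / 2) := h1.trans hr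
        _ ≤ (64 * M n) * (4 * (n : ℝ) ^ (ε / 2)) :=
            mul_le_mul hMup hm4 (by positivity) (by positivity)
        _ = M n * ((n : ℝ) ^ (ε / 2) * 256) := by ring
        _ ≤ M n * ((n : ℝ) ^ (ε / 2) * (n : ℝ) ^ (ε / 2)) := by
            refine mul_le_mul_of_nonneg_left (mul_le_mul_of_nonneg_left ?_ (by positivity)) hMpos.le
            have e2 : (N : ℝ) ^ (ε / 10) ≤ (N : ℝ) ^ (ε / 4) :=
              Real.rpow_le_rpow_of_exponent_le hNR (by linarith)
            linarith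
        _ = M n * (n : ℝ) ^ ε := by
            rw [← Real.rpow_add hn0]
            congr 2
            ring

open Pool.Agent.Results.MP_7aad9f_nt in
/-- **The least conductor of a semistable curve whose discriminant is divisible by `n`.** All but
`C N ^ (1 - ε / 20)` of the positive integers `n ≤ N` are regular. -/
theorem result : ∀ ε : ℝ, 0 < ε → ε ≤ 1 → ∃ C : ℝ, ∀ N : ℕ, 1 ≤ N →
    (({n : ℕ | 1 ≤ n ∧ n ≤ N ∧ ¬ Regular ε n}.ncard : ℕ) : ℝ) ≤ C * (N : ℝ) ^ (1 - ε / 20) := by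
  classical
  intro ε hε hε1
  obtain ⟨C, hC⟩ := MultiplesThreeHalves.result.1 (ε / 2) (by positivity) (by linarith)
  obtain ⟨N0, hN0⟩ : ∃ N0 : ℕ, ∀ N : ℕ, N0 ≤ N → (1024 : ℝ) ≤ (N : ℝ) ^ (ε / 10) := by
    have h1 : Filter.Tendsto (fun N : ℕ => (N : ℝ) ^ (ε / 10)) Filter.atTop Filter.atTop :=
      (tendsto_rpow_atTop (by positivity)).comp tendsto_natCast_atTop_atTop
    exact Filter.eventually_atTop.1 (h1.eventually_ge_atTop 1024)
  choose f g hf using fun n : ℕ => (show ∃ s t : ℕ, 0 < n → (0 < s ∧ 0 < t ∧ n = s * t ^ 2 ∧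
      Squarefree s) by
    rcases Nat.eq_zero_or_pos n with h | h
    · exact ⟨0, 0, fun h' => absurd h h'.ne'⟩
    · obtain ⟨a, b, ha, hb, h1, h2⟩ := Nat.sq_mul_squarefree_of_pos h
      exact ⟨a, b, fun _ => ⟨ha, hb, by rw [← h1]; ring, h2⟩⟩)
  refine ⟨N0 + 1 + 2 + 16 * |C|, fun N hN => ?_⟩
  have hNR : (1 : ℝ) ≤ N := by exact_mod_cast hN
  have hNp : (0 : ℝ) < N := by linarith
  have hpow1 : (1 : ℝ) ≤ (N : ℝ) ^ (1 - ε / 20) := Real.one_le_rpow hNR (by linarith)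
  obtain ⟨E, hE⟩ : ∃ E : Finset ℕ, E = (Finset.Icc 1 N).filter fun n => ¬ Regular ε n := ⟨_, rfl⟩
  have hset : {n : ℕ | 1 ≤ n ∧ n ≤ N ∧ ¬ Regular ε n} = (E : Set ℕ) := by
    ext n
    rw [hE]
    simp [and_assoc]
  rw [hset, Set.ncard_coe_finset]
  rcases lt_or_ge N N0 with hlt | hge
  · have h1 : E.card ≤ N := by
      calc E.card ≤ (Finset.Icc 1 N).card := by rw [hE]; exact Finset.card_filter_le _ _
        _ = N := by simp
    have h2 : (E.card : ℝ) ≤ N0 := by exact_mod_cast h1.trans hlt.le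
    have h3 : (0 : ℝ) ≤ N0 := Nat.cast_nonneg _
    have h4 : (0 : ℝ) ≤ |C| := abs_nonneg _
    calc (E.card : ℝ) ≤ N0 * 1 := by linarith
      _ ≤ (N0 + 1 + 2 + 16 * |C|) * (N : ℝ) ^ (1 - ε / 20) :=
          mul_le_mul (by linarith) hpow1 (by norm_num) (by positivity)
  have hbig := hN0 N hge
  -- the parameter
  obtain ⟨Y, hY⟩ : ∃ Y : ℝ, Y = (N : ℝ) ^ (ε / 20) := ⟨_, rfl⟩
  have hY1 : 1 ≤ Y := by rw [hY]; exact Real.one_le_rpow hNR (by positivity)
  obtain ⟨T, hT⟩ : ∃ T : ℕ, T = ⌊Y⌋₊ := ⟨_, rfl⟩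
  have hT1 : 1 ≤ T := by rw [hT]; exact Nat.le_floor (by simpa using hY1)
  have hTY : (T : ℝ) ≤ Y := by rw [hT]; exact Nat.floor_le (by linarith)
  have hTY2 : Y / 2 ≤ T := by
    have h1 : Y < T + 1 := by rw [hT]; exact Nat.lt_floor_add_one Y
    have h2 : (1 : ℝ) ≤ T := by exact_mod_cast hT1
    linarith
  obtain ⟨Bad, hBad⟩ : ∃ B : Finset ℕ, B = (Finset.Icc 1 (16 * N)).filter fun n =>
    ¬ MultiplesThreeHalves.Regular (ε / 2) n := ⟨_, rfl⟩
  have hBadc : (Bad.card : ℝ) ≤ 16 * |C| * (N : ℝ) ^ (1 - ε / 10) := by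
    have h1 := hC (16 * N) (by omega)
    have hset : {n : ℕ | 1 ≤ n ∧ n ≤ 16 * N ∧ ¬ MultiplesThreeHalves.Regular (ε / 2) n} =
        (Bad : Set ℕ) := by
      ext n
      rw [hBad]
      simp [and_assoc]
    rw [hset, Set.ncard_coe_finset] at h1
    refine h1.trans ?_
    push_cast
    rw [Real.mul_rpow (by norm_num) hNp.le, show 1 - ε / 2 / 5 = 1 - ε / 10 by ring]
    have e1 : (16 : ℝ) ^ (1 - ε / 10) ≤ 16 := by
      calc (16 : ℝ) ^ (1 - ε / 10) ≤ 16 ^ (1 : ℝ) :=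
            Real.rpow_le_rpow_of_exponent_le (by norm_num) (by linarith)
        _ = 16 := Real.rpow_one _
    have e2 : (0 : ℝ) ≤ (16 : ℝ) ^ (1 - ε / 10) := by positivity
    have e3 : 0 ≤ (N : ℝ) ^ (1 - ε / 10) := by positivity
    calc C * (16 ^ (1 - ε / 10) * (N : ℝ) ^ (1 - ε / 10))
        ≤ |C| * (16 ^ (1 - ε / 10) * (N : ℝ) ^ (1 - ε / 10)) :=
          mul_le_mul_of_nonneg_right (le_abs_self C) (by positivity)
      _ ≤ |C| * (16 * (N : ℝ) ^ (1 - ε / 10)) :=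
          mul_le_mul_of_nonneg_left (mul_le_mul_of_nonneg_right e1 e3) (abs_nonneg _)
      _ = _ := by ring
  obtain ⟨E0, hE0⟩ : ∃ E0, E0 = E.filter fun n => n ^ 2 ≤ N := ⟨_, rfl⟩
  obtain ⟨E1, hE1⟩ : ∃ E1, E1 = E.filter fun n => T < g n := ⟨_, rfl⟩
  obtain ⟨E2, hE2⟩ : ∃ E2, E2 = E.filter fun n => g n ≤ T ∧ 16 * (f n * g n) ∈ Bad := ⟨_, rfl⟩
  have hEm : ∀ n ∈ E, 0 < n ∧ n ≤ N ∧ ¬ Regular ε n := by
    intro n hn
    rw [hE, Finset.mem_filter, Finset.mem_Icc] at hn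
    exact ⟨hn.1.1, hn.1.2, hn.2⟩
  have hcov : E ⊆ E0 ∪ E1 ∪ E2 := by
    intro n hn
    obtain ⟨n1, n2, n3⟩ := hEm n hn
    obtain ⟨s0, t0, hst, hsq⟩ := hf n n1
    rw [Finset.mem_union, Finset.mem_union, hE0, hE1, hE2, Finset.mem_filter, Finset.mem_filter,
      Finset.mem_filter]
    by_cases h1 : n ^ 2 ≤ N
    · exact Or.inl (Or.inl ⟨hn, h1⟩)
    by_cases h2 : T < g n
    · exact Or.inl (Or.inr ⟨hn, h2⟩)
    refine Or.inr ⟨hn, not_lt.1 h2, ?_⟩
    by_contra h3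
    apply n3
    have hn2 : 2 ≤ n := by
      by_contra hcon
      have : n = 1 := by omega
      rw [this] at h1
      exact h1 (by simpa using hN)
    have hsn : f n * g n ≤ n := by
      calc f n * g n ≤ f n * (g n) ^ 2 := Nat.mul_le_mul_left _ (Nat.le_self_pow (by norm_num) _)
        _ = n := hst.symm
    refine regular_of hε hε1 hsq hst hn2 ?_ hN ?_ hbig ?_
    · exact_mod_cast not_le.1 h1
    · rw [← hY]
      exact le_trans (by exact_mod_cast not_lt.1 h2) hTY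
    · by_contra h4
      apply h3
      rw [hBad, Finset.mem_filter, Finset.mem_Icc]
      refine ⟨⟨?_, ?_⟩, h4⟩
      · have : 0 < f n * g n := Nat.mul_pos s0 t0
        omega
      · omega
  have c0 : (E0.card : ℝ) ≤ (N : ℝ) ^ (1 - ε / 20) := by
    have h1 : E0 ⊆ Finset.Icc 1 (Nat.sqrt N) := by
      intro n hn
      rw [hE0, Finset.mem_filter] at hn
      rw [Finset.mem_Icc]
      exact ⟨(hEm n hn.1).1, Nat.le_sqrt'.2 hn.2⟩
    have h2 := Finset.card_le_card h1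
    rw [Nat.card_Icc, Nat.add_sub_cancel] at h2
    have h3 : ((Nat.sqrt N : ℕ) : ℝ) ≤ (N : ℝ) ^ (1 / 2 : ℝ) := by
      rw [← Real.sqrt_eq_rpow]
      exact Real.nat_sqrt_le_real_sqrt
    calc (E0.card : ℝ) ≤ (Nat.sqrt N : ℕ) := by exact_mod_cast h2
      _ ≤ (N : ℝ) ^ (1 / 2 : ℝ) := h3
      _ ≤ _ := Real.rpow_le_rpow_of_exponent_le hNR (by linarith)
  have c1 : (E1.card : ℝ) ≤ 2 * (N : ℝ) ^ (1 - ε / 20) := by
    have h1 : E1 ⊆ (Finset.Ioc T N).biUnion fun t => (Finset.Ioc 0 N).filter fun n => t ^ 2 ∣ n := by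
      intro n hn
      rw [hE1, Finset.mem_filter] at hn
      obtain ⟨n1, n2, -⟩ := hEm n hn.1
      obtain ⟨s0, t0, hst, -⟩ := hf n n1
      rw [Finset.mem_biUnion]
      refine ⟨g n, ?_, ?_⟩
      · rw [Finset.mem_Ioc]
        refine ⟨hn.2, le_trans ?_ n2⟩
        calc g n ≤ (g n) ^ 2 := Nat.le_self_pow (by norm_num) _
          _ ≤ f n * (g n) ^ 2 := Nat.le_mul_of_pos_left _ s0
          _ = n := hst.symm
      · rw [Finset.mem_filter, Finset.mem_Ioc]
        exact ⟨⟨n1, n2⟩, ⟨f n, by rw [mul_comm]; exact hst⟩⟩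
    have h2 : (E1.card : ℝ) ≤ ∑ t ∈ Finset.Ioc T N, (N : ℝ) * ((t : ℝ) ^ 2)⁻¹ := by
      have h3 := (Finset.card_le_card h1).trans Finset.card_biUnion_le
      have h4 : ((∑ t ∈ Finset.Ioc T N, ((Finset.Ioc 0 N).filter fun n => t ^ 2 ∣ n).card : ℕ) : ℝ) ≤
          ∑ t ∈ Finset.Ioc T N, (N : ℝ) * ((t : ℝ) ^ 2)⁻¹ := by
        push_cast
        refine Finset.sum_le_sum fun t _ => ?_
        rw [Nat.Ioc_filter_dvd_card_eq_div]
        refine Nat.cast_div_le.trans ?_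
        push_cast
        rw [div_eq_mul_inv]
      exact le_trans (by exact_mod_cast h3) h4
    rcases le_total T N with hTN | hTN
    · have h5 := sum_Ioc_inv_sq_le_sub (α := ℝ) (k := T) (n := N) (by omega) hTN
      have h6 : (0 : ℝ) ≤ ((N : ℝ))⁻¹ := by positivity
      rw [← Finset.mul_sum] at h2
      have h7 : (E1.card : ℝ) ≤ (N : ℝ) * ((T : ℝ))⁻¹ :=
        h2.trans (mul_le_mul_of_nonneg_left (by linarith) hNp.le)
      refine h7.trans ?_
      have h8 : ((T : ℝ))⁻¹ ≤ 2 * Y⁻¹ := by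
        rw [← one_div, ← div_eq_mul_inv, div_le_div_iff₀ (by exact_mod_cast hT1) (by linarith)]
        linarith
      calc (N : ℝ) * ((T : ℝ))⁻¹ ≤ N * (2 * Y⁻¹) := mul_le_mul_of_nonneg_left h8 hNp.le
        _ = 2 * ((N : ℝ) ^ (1 : ℝ) * (N : ℝ) ^ (-(ε / 20))) := by
            rw [Real.rpow_neg hNp.le, ← hY, Real.rpow_one]
            ring
        _ = _ := by
            rw [← Real.rpow_add hNp]
            congr 2
    · rw [Finset.Ioc_eq_empty (by omega), Finset.sum_empty] at h2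
      exact h2.trans (by positivity)
  have c2 : (E2.card : ℝ) ≤ 16 * |C| * (N : ℝ) ^ (1 - ε / 20) := by
    have h1 : E2.card ≤ (Bad ×ˢ Finset.Icc 1 T).card := by
      refine Finset.card_le_card_of_injOn (fun n => (16 * (f n * g n), g n)) ?_ ?_
      · intro n hn
        rw [Finset.mem_coe, hE2, Finset.mem_filter] at hn
        obtain ⟨s0, t0, -, -⟩ := hf n (hEm n hn.1).1
        rw [Finset.mem_coe, Finset.mem_product, Finset.mem_Icc]
        exact ⟨hn.2.2, t0, hn.2.1⟩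
      · intro n hn n' hn' h
        rw [Finset.mem_coe, hE2, Finset.mem_filter] at hn hn'
        obtain ⟨s0, t0, hst, -⟩ := hf n (hEm n hn.1).1
        obtain ⟨s0', t0', hst', -⟩ := hf n' (hEm n' hn'.1).1
        simp only [Prod.mk.injEq] at h
        obtain ⟨h2, h3⟩ := h
        rw [h3] at h2
        have h4 : f n = f n' := by
          have h5 : f n * g n' = f n' * g n' := by omega
          exact Nat.eq_of_mul_eq_mul_right t0' h5
        rw [hst, hst', h3, h4]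
    rw [Finset.card_product, Nat.card_Icc, Nat.add_sub_cancel] at h1
    calc (E2.card : ℝ) ≤ (Bad.card : ℝ) * T := by exact_mod_cast h1
      _ ≤ (16 * |C| * (N : ℝ) ^ (1 - ε / 10)) * (N : ℝ) ^ (ε / 20) := by
          refine mul_le_mul hBadc ?_ (Nat.cast_nonneg _) (by positivity)
          rw [← hY]
          exact hTY
      _ = _ := by
          rw [mul_assoc (16 * |C|), ← Real.rpow_add hNp]
          congr 2
          ring
  have c3 : (E.card : ℝ) ≤ E0.card + E1.card + E2.card := by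
    have h1 := Finset.card_le_card hcov
    have h2 := Finset.card_union_le (E0 ∪ E1) E2
    have h3 := Finset.card_union_le E0 E1
    have : E.card ≤ E0.card + E1.card + E2.card := by omega
    exact_mod_cast this
  have h5 : (0 : ℝ) ≤ (N0 : ℝ) * (N : ℝ) ^ (1 - ε / 20) := by positivity
  have h6 : (N0 + 1 + 2 + 16 * |C|) * (N : ℝ) ^ (1 - ε / 20) =
      N0 * (N : ℝ) ^ (1 - ε / 20) + (N : ℝ) ^ (1 - ε / 20) + 2 * (N : ℝ) ^ (1 - ε / 20) +
        16 * |C| * (N : ℝ) ^ (1 - ε / 20) := by ring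
  rw [h6]
  linarith

end Pool.Agent.Results.MP_d8bd92_nt.LeastConductorOfMultiples
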