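import Mathlib
import Pool.Agent.V11288.SZ.Semi

/-!
# Szpiro's conjecture for all semistable curves with sparse invariants and sparse conductor

Let `S` be a finite set of primes. A rational number is called sparse if it is a sum of at most `l`
numbers `k u`, `u` an `S`-unit and `k` an integer of absolute value at most `B M ^ δ`,
`M = max (|c₄| ^ 3, c₆ ^ 2)`. We prove Szpiro's inequality, with the exponent `6 + ε`, for ALL
semistable elliptic curves over `ℚ` for which `c₄`, `c₆`, the product `R` of the primes outside `S` that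
divide `Δ`, and the cofactor `R ^ m / Δ` are sparse. No condition is imposed on the prime factors of
`c₄` and `c₆`. The results so far on this problem allow an exceptional set.

The proof: the abc inequality for sparse triples (`Pool/Agent/Y724/T4/ABQ.lean`, from the Subspace
theorem), applied to `c₄ ^ 3 - c₆ ^ 2 = 1728 Δ` and to the multiple `c₄ c₆ R` of the radical, gives
`M ≤ C (c₄ c₆ R) ^ (1 + ε) ≤ C (M ^ (5/6) N) ^ (1 + ε)`.
-/

set_option autoImplicit false

namespace Pool.Agent.Results.MP_d8bd92_nt.SparseCurves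

open Finset

/-- the product of the distinct primes dividing `Δ(W)` (the conductor if `gcd(c₄, Δ) = 1`) -/
def conductor (W : WeierstrassCurve ℤ) : ℕ := ∏ p ∈ W.Δ.natAbs.primeFactors, p

/-- the product of the distinct primes dividing `Δ(W)` which are not in `S` -/
def conductorOutside (S : Finset ℕ) (W : WeierstrassCurve ℤ) : ℕ :=
  ∏ p ∈ W.Δ.natAbs.primeFactors.filter (fun p => p ∉ S), p

/-- `u` is an `S`-unit: plus or minus a product of powers (with integer exponents) of the primes in
`S` -/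
def IsSUnit (S : Finset ℕ) (u : ℚ) : Prop :=
  ∃ (σ : ℤ) (e : ℕ → ℤ), (σ = 1 ∨ σ = -1) ∧ u = σ * ∏ p ∈ S, (p : ℚ) ^ e p

/-- the rational number `z` is a sum of `l` `S`-units with integer coefficients of absolute value at
most `R` -/
def IsSparse (S : Finset ℕ) (l : ℕ) (R : ℝ) (z : ℚ) : Prop :=
  ∃ (u : Fin l → ℚ) (k : Fin l → ℤ), (∀ j, IsSUnit S (u j)) ∧ (∀ j, |(k j : ℝ)| ≤ R) ∧
    z = ∑ j, u j * k j

/-- the height `max (|c₄| ^ 3, c₆ ^ 2)` -/
noncomputable def height (W : WeierstrassCurve ℤ) : ℝ :=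
  max (|(W.c₄ : ℝ)| ^ 3) ((W.c₆ : ℝ) ^ 2)

/-- **Main theorem.** For every finite set `S` of primes, all `l`, `m`, all real `B` and all `ε > 0`
there are `δ > 0` and `C` such that `|Δ| ≤ max (|c₄| ^ 3, c₆ ^ 2) ≤ C N ^ (6 + ε)` for all minimal
equations of semistable elliptic curves over `ℚ` such that `c₄`, `c₆`, the part `R` of the conductor
`N` prime to `S` and `R ^ m / Δ` are sums of `l` `S`-units with integer coefficients of absolute value
at most `B * height ^ δ`. -/
theorem result (S : Finset ℕ) (hS : ∀ p ∈ S, p.Prime) (l m : ℕ) (B ε : ℝ) (hε : 0 < ε) :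
    ∃ (δ C : ℝ), 0 < δ ∧ ∀ W : WeierstrassCurve ℤ, W.Δ ≠ 0 → IsCoprime W.c₄ W.Δ →
      IsSparse S l (B * height W ^ δ) W.c₄ → IsSparse S l (B * height W ^ δ) W.c₆ →
      IsSparse S l (B * height W ^ δ) (conductorOutside S W) →
      IsSparse S l (B * height W ^ δ) ((conductorOutside S W : ℚ) ^ m / W.Δ) →
      |(W.Δ : ℝ)| ≤ height W ∧ height W ≤ C * (conductor W : ℝ) ^ (6 + ε) := by
  classical
  obtain ⟨δ, C, hδ, hC, h⟩ := Pool.Agent.V11288.SZ.semi S hS l m B ε hε
  refine ⟨δ, C, hδ, ?_⟩
  intro W hΔ hcop s4 s6 sr st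
  have hΔQ : (W.Δ : ℚ) ≠ 0 := by exact_mod_cast hΔ
  have hrelR : (W.c₄ : ℝ) ^ 3 - (W.c₆ : ℝ) ^ 2 = 1728 * W.Δ := by
    have h1 := W.c_relation
    have h2 : W.c₄ ^ 3 - W.c₆ ^ 2 = 1728 * W.Δ := by linear_combination -h1
    exact_mod_cast h2
  refine ⟨?_, ?_⟩
  · have h1 : |(W.Δ : ℝ)| * 1728 ≤ |(W.c₄ : ℝ)| ^ 3 + (W.c₆ : ℝ) ^ 2 := by
      have h2 : |(W.Δ : ℝ)| * 1728 = |(W.c₄ : ℝ) ^ 3 - (W.c₆ : ℝ) ^ 2| := by
        rw [hrelR, abs_mul]
        norm_num
        ring
      rw [h2]
      calc |(W.c₄ : ℝ) ^ 3 - (W.c₆ : ℝ) ^ 2| ≤ |(W.c₄ : ℝ) ^ 3| + |(W.c₆ : ℝ) ^ 2| := abs_sub _ _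
        _ = _ := by rw [abs_pow, abs_of_nonneg (sq_nonneg (W.c₆ : ℝ))]
    have h3 : |(W.c₄ : ℝ)| ^ 3 ≤ height W := le_max_left _ _
    have h4 : (W.c₆ : ℝ) ^ 2 ≤ height W := le_max_right _ _
    have h5 := sq_nonneg (W.c₆ : ℝ)
    linarith
  · have hrpos : 0 < conductorOutside S W := Finset.prod_pos fun p hp =>
      (Nat.prime_of_mem_primeFactors (mem_filter.1 hp).1).pos
    have h1 := h W hΔ hcop (conductorOutside S W) ((conductorOutside S W : ℚ) ^ m / W.Δ) hrpos ?_
      (by field_simp) s4 s6 sr st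
    · refine h1.trans ?_
      apply mul_le_mul_of_nonneg_left _ hC.le
      refine Real.rpow_le_rpow (Nat.cast_nonneg _) ?_ (by linarith)
      have h2 : Pool.Agent.V11288.SZ.N6 W.c₄ W.c₆ ≤ conductor W := by
        rw [Pool.Agent.V11288.SZ.N6_eq W]
        refine Nat.le_of_dvd (Finset.prod_pos fun p hp => (Nat.prime_of_mem_primeFactors hp).pos) ?_
        have h3 : ∏ p ∈ W.Δ.natAbs.primeFactors.filter (fun p => 5 ≤ p),
            (if (p : ℤ) ∣ W.c₄ then p ^ 2 else p) =
            ∏ p ∈ W.Δ.natAbs.primeFactors.filter (fun p => 5 ≤ p), p := by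
          refine Finset.prod_congr rfl fun p hp => ?_
          have hp1 := (mem_filter.1 hp).1
          have hpp := Nat.prime_of_mem_primeFactors hp1
          have hd : (p : ℤ) ∣ W.Δ := Int.natCast_dvd.2 (Nat.dvd_of_mem_primeFactors hp1)
          rw [if_neg]
          intro h4
          exact (Nat.prime_iff_prime_int.mp hpp).not_unit (hcop.isUnit_of_dvd' h4 hd)
        rw [h3]
        exact Finset.prod_dvd_prod_of_subset _ _ _ (filter_subset _ _)
      exact_mod_cast h2
    · intro p hp hpS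
      constructor
      · have hsq : Squarefree (conductorOutside S W) := by
          unfold conductorOutside
          refine Finset.squarefree_prod_of_pairwise_isCoprime ?_ ?_
          · intro q hq q' hq' hne
            have h1 := Nat.prime_of_mem_primeFactors (mem_filter.1 hq).1
            have h2 := Nat.prime_of_mem_primeFactors (mem_filter.1 hq').1
            exact Nat.coprime_iff_isRelPrime.1 ((Nat.coprime_primes h1 h2).2 hne)
          · intro q hq
            exact (Nat.prime_of_mem_primeFactors (mem_filter.1 hq).1).squarefree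
        intro hd
        have h1 : p * p ∣ conductorOutside S W := by rwa [← sq]
        exact hp.one_lt.ne' (Nat.isUnit_iff.1 (hsq p h1))
      · intro hd
        unfold conductorOutside at hd
        rw [hp.prime.dvd_finsetProd_iff] at hd
        obtain ⟨q, hq, hpq⟩ := hd
        have hq1 := (mem_filter.1 hq).1
        rw [(Nat.prime_dvd_prime_iff_eq hp (Nat.prime_of_mem_primeFactors hq1)).1 hpq]
        exact Int.natCast_dvd.2 (Nat.dvd_of_mem_primeFactors hq1)

end Pool.Agent.Results.MP_d8bd92_nt.SparseCurves
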